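import Pool.Agent.Helper28.TL.StV

/-!
# Project TL, low levels, MODULE MS: extension to the group `SL₂(ℤ)`, with the sign `eps`
-/

set_option autoImplicit false

namespace Pool.Agent.Helper70.TLV

open Pool.Agent.Helper28.TL Pool.Agent.Helper28.WK Pool.Agent.Helper28.LV Pool.Agent.Helper4.TL
open Pool.Agent.Helper14.CV

variable {p : ℕ} [Fact p.Prime]

/-- The set `E` of the docstring of `VMS`. -/
private def EE (H : ℤ → ℤ → ℤ_[p])
    (F : ℤ → ℤ → ℤ → ℤ → ℚ_[p] → ℚ_[p] → ℚ_[p] → ℚ_[p] → ℚ_[p]) (α β γ δ : ℤ) : Prop :=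
  ∀ v1 v2 w1 w2 : ℤ, (v1 ≠ 0 ∨ v2 ≠ 0) → (w1 ≠ 0 ∨ w2 ≠ 0) →
    ((eps α β γ δ : ℤ) : ℚ_[p]) *
      ((H (α * w1 + β * w2) (γ * w1 + δ * w2) - H (α * v1 + β * v2) (γ * v1 + δ * v2) : ℤ_[p]) :
      ℚ_[p]) = F v1 v2 w1 w2 α β γ δ ∧
    ∀ x y z t : ℚ_[p],
      F (α * v1 + β * v2) (γ * v1 + δ * v2) (α * w1 + β * w2) (γ * w1 + δ * w2) x y z t =
        ((eps α β γ δ : ℤ) : ℚ_[p]) *
          F v1 v2 w1 w2 (x * α + y * γ) (x * β + y * δ) (z * α + t * γ) (z * β + t * δ)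

private lemma cast_eps_sq (α β γ δ : ℤ) :
    ((eps α β γ δ : ℤ) : ℚ_[p]) * ((eps α β γ δ : ℤ) : ℚ_[p]) = 1 := by
  rw [← Int.cast_mul, eps_sq, Int.cast_one]

private lemma odd_det {α β γ δ : ℤ} (h : α * δ - β * γ = 1) : ¬ (2 : ℤ) ∣ α * δ - β * γ := by
  rw [h]; decide

private lemma EE.mul {H : ℤ → ℤ → ℤ_[p]}
    {F : ℤ → ℤ → ℤ → ℤ → ℚ_[p] → ℚ_[p] → ℚ_[p] → ℚ_[p] → ℚ_[p]}
    {α β γ δ α' β' γ' δ' : ℤ} (h : EE H F α β γ δ) (h' : EE H F α' β' γ' δ')
    (hdet0 : α * δ - β * γ = 1) (hdet : α' * δ' - β' * γ' = 1) :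
    EE H F (α * α' + β * γ') (α * β' + β * δ') (γ * α' + δ * γ') (γ * β' + δ * δ') := by
  intro v1 v2 w1 w2 hv hw
  have hne : α' * δ' - β' * γ' ≠ 0 := by rw [hdet]; exact one_ne_zero
  obtain ⟨h1, h2⟩ := h _ _ _ _ (ne_zero_of_det hne hv) (ne_zero_of_det hne hw)
  obtain ⟨h3, h4⟩ := h' v1 v2 w1 w2 hv hw
  have e (a b c d x y : ℤ) : (a * α' + b * γ') * x + (a * β' + b * δ') * y =
      a * (α' * x + β' * y) + b * (γ' * x + δ' * y) := by ring
  have em : ((eps (α * α' + β * γ') (α * β' + β * δ') (γ * α' + δ * γ') (γ * β' + δ * δ') : ℤ) :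
      ℚ_[p]) = ((eps α β γ δ : ℤ) : ℚ_[p]) * ((eps α' β' γ' δ' : ℤ) : ℚ_[p]) := by
    rw [← Int.cast_mul, eps_mul (odd_det hdet0) (odd_det hdet)]
  have hs := cast_eps_sq (p := p) α' β' γ' δ'
  refine ⟨?_, ?_⟩
  · rw [e α β 0 0 w1 w2, e γ δ 0 0 w1 w2, e α β 0 0 v1 v2, e γ δ 0 0 v1 v2, em]
    rw [h4] at h1
    have h5 : ((eps α β γ δ : ℤ) : ℚ_[p]) * ((eps α' β' γ' δ' : ℤ) : ℚ_[p]) *
        ((H (α * (α' * w1 + β' * w2) + β * (γ' * w1 + δ' * w2))
          (γ * (α' * w1 + β' * w2) + δ * (γ' * w1 + δ' * w2)) -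
          H (α * (α' * v1 + β' * v2) + β * (γ' * v1 + δ' * v2))
          (γ * (α' * v1 + β' * v2) + δ * (γ' * v1 + δ' * v2)) : ℤ_[p]) : ℚ_[p]) =
        ((eps α' β' γ' δ' : ℤ) : ℚ_[p]) * (((eps α β γ δ : ℤ) : ℚ_[p]) *
        ((H (α * (α' * w1 + β' * w2) + β * (γ' * w1 + δ' * w2))
          (γ * (α' * w1 + β' * w2) + δ * (γ' * w1 + δ' * w2)) -
          H (α * (α' * v1 + β' * v2) + β * (γ' * v1 + δ' * v2))
          (γ * (α' * v1 + β' * v2) + δ * (γ' * v1 + δ' * v2)) : ℤ_[p]) : ℚ_[p])) := by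
      ring
    rw [h5, h1, ← mul_assoc, hs, one_mul]
    push_cast
    rfl
  · intro x y z t
    rw [e α β 0 0 w1 w2, e γ δ 0 0 w1 w2, e α β 0 0 v1 v2, e γ δ 0 0 v1 v2, h2, h4, em, mul_assoc]
    congr 2
    congr 1 <;> push_cast <;> ring

theorem hMS : VMS := by
  intro hMC hPl hT hU p hp a H hp2 hHom hSym hNb hNc
  have hp2' : ¬ (2 : ℤ) ∣ (p : ℤ) := by
    intro h
    have h1 : 2 ∣ p := by exact_mod_cast h
    exact hp2 ((Nat.prime_dvd_prime_iff_eq Nat.prime_two hp.out).1 h1).symm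
  have hex : ∀ v1 v2 w1 w2 : ℤ, (v1 ≠ 0 ∨ v2 ≠ 0) → (w1 ≠ 0 ∨ w2 ≠ 0) →
      ∃ F : ℚ_[p] → ℚ_[p] → ℚ_[p] → ℚ_[p] → ℚ_[p], Rg a F ∧ ∀ α β γ δ : ℤ,
      α * δ - β * γ = 1 → (p : ℤ) ^ 1 ∣ γ →
      ((eps α β γ δ : ℤ) : ℚ_[p]) *
      ((H (α * w1 + β * w2) (γ * w1 + δ * w2) - H (α * v1 + β * v2) (γ * v1 + δ * v2) : ℤ_[p]) :
        ℚ_[p]) = F α β γ δ := fun v1 v2 w1 w2 hv hw => by
    obtain ⟨F, h1, h2⟩ := hMC p hp a 1 H hp2 le_rfl hHom hSym hNb
      (fun c hc => hNc c ((dvd_mul_right _ _).trans hc)) v1 v2 w1 w2 hv hw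
    refine ⟨F, h1, fun α β γ δ hd hγ => ?_⟩
    rw [← h2 α β γ δ hd hγ, PadicInt.coe_mul, PadicInt.coe_intCast]
  choose! F hF using hex
  -- (1) the group `Γ₀(p)`
  have hG0 : ∀ α β γ δ : ℤ, α * δ - β * γ = 1 → (p : ℤ) ^ 1 ∣ γ → EE H F α β γ δ := by
    intro α β γ δ hdet hγ v1 v2 w1 w2 hv hw
    have hne : α * δ - β * γ ≠ 0 := by rw [hdet]; exact one_ne_zero
    have hv' := ne_zero_of_det hne hv
    have hw' := ne_zero_of_det hne hw
    refine ⟨(hF v1 v2 w1 w2 hv hw).2 α β γ δ hdet hγ, ?_⟩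
    have r1 := (hF _ _ _ _ hv' hw').1
    have r2 := (hT p hp a _ (hF v1 v2 w1 w2 hv hw).1).1 (α : ℚ_[p]) β γ δ
    have r3 := (hT p hp a _ r1).2.2.2.1 _ 1 (-((eps α β γ δ : ℤ) : ℚ_[p])) r2
    have r4 := hU p hp a 1 _ r3 ?_
    · intro x y z t
      have := r4 x y z t
      linear_combination this
    · intro x y z t hd _ _ hz _
      have s1 := (hF _ _ _ _ hv' hw').2 x y z t hd hz
      have hd2 : (x * α + y * γ) * (z * β + t * δ) - (x * β + y * δ) * (z * α + t * γ) = 1 := by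
        have : (x * α + y * γ) * (z * β + t * δ) - (x * β + y * δ) * (z * α + t * γ) =
          (x * t - y * z) * (α * δ - β * γ) := by ring
        rw [this, hd, hdet, one_mul]
      have s2 := (hF v1 v2 w1 w2 hv hw).2 (x * α + y * γ) (x * β + y * δ) (z * α + t * γ)
        (z * β + t * δ) hd2 (dvd_add (hz.mul_right _) (hγ.mul_left _))
      rw [← s1]
      have e (a b x y : ℤ) : (a * α + b * γ) * x + (a * β + b * δ) * y =
        a * (α * x + β * y) + b * (γ * x + δ * y) := by ring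
      rw [e x y w1 w2, e z t w1 w2, e x y v1 v2, e z t v1 v2,
        eps_mul (odd_det hd) (odd_det hdet)] at s2
      push_cast at s2 ⊢
      rw [← s2]
      have hs := cast_eps_sq (p := p) α β γ δ
      linear_combination (-(((eps x y z t : ℤ) : ℚ_[p]) *
        (((H (x * (α * w1 + β * w2) + y * (γ * w1 + δ * w2))
          (z * (α * w1 + β * w2) + t * (γ * w1 + δ * w2)) : ℤ_[p]) : ℚ_[p]) -
        ((H (x * (α * v1 + β * v2) + y * (γ * v1 + δ * v2))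
          (z * (α * v1 + β * v2) + t * (γ * v1 + δ * v2)) : ℤ_[p]) : ℚ_[p])))) * hs
  -- (2) the value at even lower unipotent matrices
  have hstar0 : ∀ c v1 v2 w1 w2 : ℤ, (v1 ≠ 0 ∨ v2 ≠ 0) → (w1 ≠ 0 ∨ w2 ≠ 0) →
      ((H (1 * w1 + 0 * w2) (2 * c * w1 + 1 * w2) - H (1 * v1 + 0 * v2) (2 * c * v1 + 1 * v2) :
        ℤ_[p]) : ℚ_[p]) = F v1 v2 w1 w2 1 0 (2 * (c : ℚ_[p])) 1 := by
    intro c v1 v2 w1 w2 hv hw
    obtain ⟨hR, hval⟩ := hF v1 v2 w1 w2 hv hw
    obtain ⟨Q, hQ⟩ := hR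
    obtain ⟨k, hk⟩ := hNc 2 (dvd_refl _)
    have hP : Plf a (fun c : ℤ => H (1 * w1 + 0 * w2) (2 * c * w1 + 1 * w2) -
        H (1 * v1 + 0 * v2) (2 * c * v1 + 1 * v2)) := by
      intro b
      have nz {x y : ℤ} (h : x ≠ 0 ∨ y ≠ 0) : (x ≠ 0 ∨ 2 * b * x + y ≠ 0) := by
        by_cases hx : x = 0
        · right
          rcases h with h | h
          · exact absurd hx h
          · rw [hx, mul_zero, zero_add]
            exact h
        · exact Or.inl hx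
      have k1 := hk w1 (2 * b * w1 + w2) (nz hw)
      have k2 := hk v1 (2 * b * v1 + v2) (nz hv)
      simp only [Nc, Pi.zero_apply, zero_add] at k1 k2
      simp only [smul_sub]
      rw [Finset.sum_sub_distrib, sub_eq_zero]
      have e (x y : ℤ) (j : ℕ) : H (1 * x + 0 * y) (2 * (b + (j : ℤ)) * x + 1 * y) =
          H x ((j : ℤ) * 2 * x + (2 * b * x + y)) := by
        congr 1 <;> ring
      simp only [e]
      rw [k1, k2]
    obtain ⟨f, _, hf⟩ := hPl p hp a _ hP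
    obtain ⟨g, hg⟩ : ∃ g : Polynomial ℚ_[p], g = ∑ i ∈ Finset.range (a + 1),
        ∑ j ∈ Finset.range (a + 1), Polynomial.C (Q i j * ((1 : ℚ_[p]) ^ (a - i) * 0 ^ i)) *
          (Polynomial.C 2 * Polynomial.X) ^ j := ⟨_, rfl⟩
    have hge : ∀ x : ℚ_[p], g.eval x = F v1 v2 w1 w2 1 0 (2 * x) 1 := by
      intro x
      rw [hg, hQ, Polynomial.eval_finsetSum]
      refine Finset.sum_congr rfl fun i _ => ?_
      rw [Polynomial.eval_finsetSum]
      refine Finset.sum_congr rfl fun j _ => ?_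
      rw [Polynomial.eval_mul, Polynomial.eval_C, Polynomial.eval_pow, Polynomial.eval_mul,
        Polynomial.eval_C, Polynomial.eval_X, one_pow (a - j), mul_one]
      ring
    have hfg : f = g := by
      refine Polynomial.eq_of_infinite_eval_eq f g ?_
      refine Set.infinite_of_injective_forall_mem (f := fun m : ℕ => ((p : ℚ_[p]) * (m : ℚ_[p])))
        ?_ ?_
      · intro m m' h
        have hp0 : (p : ℚ_[p]) ≠ 0 := by exact_mod_cast hp.out.ne_zero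
        exact_mod_cast mul_left_cancel₀ hp0 h
      · intro m
        have h1 := hf ((p : ℤ) * m)
        have h2 := hval 1 0 (2 * ((p : ℤ) * m)) 1 (by ring)
          (by rw [pow_one]; exact Dvd.dvd.mul_left (dvd_mul_right _ _) 2)
        rw [eps_id (dvd_zero _) (dvd_mul_right _ _), Int.cast_one, one_mul] at h2
        show f.eval _ = g.eval _
        rw [hge]
        push_cast at h1 h2 ⊢
        rw [← h1, ← h2]
    rw [← hge, ← hfg]
    exact hf c
  have hstar : ∀ c v1 v2 w1 w2 : ℤ, (2 : ℤ) ∣ c → (v1 ≠ 0 ∨ v2 ≠ 0) → (w1 ≠ 0 ∨ w2 ≠ 0) →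
      ((H (1 * w1 + 0 * w2) (c * w1 + 1 * w2) - H (1 * v1 + 0 * v2) (c * v1 + 1 * v2) : ℤ_[p]) :
        ℚ_[p]) = F v1 v2 w1 w2 1 0 c 1 := by
    intro c v1 v2 w1 w2 hc hv hw
    obtain ⟨m, rfl⟩ := hc
    have := hstar0 m v1 v2 w1 w2 hv hw
    push_cast at this ⊢
    exact this
  have hn2 : ∀ c : ℤ, (2 : ℤ) ∣ c → EE H F 1 0 c 1 := by
    intro c hc v1 v2 w1 w2 hv hw
    have e10 : ((eps 1 0 c 1 : ℤ) : ℚ_[p]) = 1 := by
      rw [eps_id (dvd_zero _) hc, Int.cast_one]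
    rw [e10]
    refine ⟨?_, ?_⟩
    · have := hstar c v1 v2 w1 w2 hc hv hw
      rw [one_mul]
      push_cast at this ⊢
      exact this
    have hne : (1 : ℤ) * 1 - 0 * c ≠ 0 := by norm_num
    have hv' := ne_zero_of_det hne hv
    have hw' := ne_zero_of_det hne hw
    have r1 := (hF _ _ _ _ hv' hw').1
    have r2 := (hT p hp a _ (hF v1 v2 w1 w2 hv hw).1).1 ((1 : ℤ) : ℚ_[p]) ((0 : ℤ) : ℚ_[p])
      ((c : ℤ) : ℚ_[p]) ((1 : ℤ) : ℚ_[p])
    have r3 := (hT p hp a _ r1).2.2.2.1 _ 1 (-1) r2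
    have r4 := hU p hp a 2 _ r3 ?_
    · intro x y z t
      have := r4 x y z t
      linear_combination this
    · intro α β γ δ hd hα hβ hγ hδ
      have s1 := (hF _ _ _ _ hv' hw').2 α β γ δ hd
        (dvd_trans (pow_dvd_pow (p : ℤ) (by norm_num)) hγ)
      -- `x' = n'(-c) x n'(c)`
      have hd' : (α + β * c) * (δ - c * β) - β * (γ - c * α + (δ - c * β) * c) = 1 := by
        linear_combination hd
      have hγ' : (p : ℤ) ^ 1 ∣ γ - c * α + (δ - c * β) * c := by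
        have e : γ - c * α + (δ - c * β) * c = γ - c * (α - 1) + c * (δ - 1) - c * c * β := by ring
        rw [e]
        have hdv : (p : ℤ) ^ 1 ∣ (p : ℤ) ^ 2 := pow_dvd_pow (p : ℤ) (by norm_num)
        exact dvd_sub (dvd_add (dvd_sub (dvd_trans hdv hγ) ((dvd_trans hdv hα).mul_left _))
          ((dvd_trans hdv hδ).mul_left _)) ((dvd_trans hdv hβ).mul_left _)
      have hee : eps (α + β * c) β (γ - c * α + (δ - c * β) * c) (δ - c * β) = eps α β γ δ := by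
        obtain ⟨m, rfl⟩ := hc
        refine eps_mod ⟨β * m, by ring⟩ ⟨0, by ring⟩ ⟨-(m * α) + (δ - 2 * m * β) * m, by ring⟩
          ⟨-(m * β), by ring⟩
      have hx' := hG0 _ _ _ _ hd' hγ' v1 v2 w1 w2 hv hw
      have s2 := hx'.2 1 0 c 1
      rw [hee] at s2
      have hne' : (α + β * c) * (δ - c * β) - β * (γ - c * α + (δ - c * β) * c) ≠ 0 := by
        rw [hd']; exact one_ne_zero
      have s3 := hstar c _ _ _ _ hc (ne_zero_of_det hne' hv) (ne_zero_of_det hne' hw)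
      rw [s2] at s3
      rw [← s1]
      have e1 : ∀ x y : ℤ, 1 * ((α + β * c) * x + β * y) +
          0 * ((γ - c * α + (δ - c * β) * c) * x + (δ - c * β) * y) =
          α * (1 * x + 0 * y) + β * (c * x + 1 * y) := by intro x y; ring
      have e2 : ∀ x y : ℤ, c * ((α + β * c) * x + β * y) +
          1 * ((γ - c * α + (δ - c * β) * c) * x + (δ - c * β) * y) =
          γ * (1 * x + 0 * y) + δ * (c * x + 1 * y) := by intro x y; ring
      rw [e1 w1 w2, e2 w1 w2, e1 v1 v2, e2 v1 v2] at s3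
      rw [s3]
      have hs := cast_eps_sq (p := p) α β γ δ
      have e3 : ∀ (x1 x2 x3 x4 y1 y2 y3 y4 : ℚ_[p]), x1 = y1 → x2 = y2 → x3 = y3 → x4 = y4 →
          1 * (((eps α β γ δ : ℤ) : ℚ_[p]) * (((eps α β γ δ : ℤ) : ℚ_[p]) *
            F v1 v2 w1 w2 x1 x2 x3 x4)) + -1 * F v1 v2 w1 w2 y1 y2 y3 y4 = 0 := by
        intro x1 x2 x3 x4 y1 y2 y3 y4 h1 h2 h3 h4
        rw [h1, h2, h3, h4]
        linear_combination F v1 v2 w1 w2 y1 y2 y3 y4 * hs
      apply e3 <;> push_cast <;> ring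
  have hn' : ∀ c : ℤ, EE H F 1 0 c 1 := by
    intro c
    by_cases hc : (2 : ℤ) ∣ c
    · exact hn2 c hc
    · have h1 := (hG0 1 0 p 1 (by ring) (by rw [pow_one])).mul (hn2 (c - p) (by omega))
        (by ring) (by ring)
      have e1 : (1 : ℤ) * 1 + 0 * (c - p) = 1 := by ring
      have e2 : (1 : ℤ) * 0 + 0 * 1 = 0 := by ring
      have e3 : (p : ℤ) * 1 + 1 * (c - p) = c := by ring
      have e4 : (p : ℤ) * 0 + 1 * 1 = 1 := by ring
      rw [e1, e2, e3, e4] at h1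
      exact h1
  -- (3) generation
  have hS : EE H F 0 1 (-1) 0 := by
    have h1 := (hG0 1 1 0 1 (by norm_num) (dvd_zero _)).mul (hn' (-1)) (by norm_num) (by norm_num)
    have h2 := h1.mul (hG0 1 1 0 1 (by norm_num) (dvd_zero _)) (by norm_num) (by norm_num)
    norm_num at h2
    exact h2
  have hall : ∀ (N : ℕ) (α β γ δ : ℤ), γ.natAbs ≤ N → α * δ - β * γ = 1 → EE H F α β γ δ := by
    intro N
    induction N with
    | zero =>
      intro α β γ δ hN hdet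
      have : γ = 0 := by omega
      exact hG0 α β γ δ hdet (by rw [this]; exact dvd_zero _)
    | succ N ih =>
      intro α β γ δ hN hdet
      by_cases h0 : γ = 0
      · exact hG0 α β γ δ hdet (by rw [h0]; exact dvd_zero _)
      · have hr : (α % γ).natAbs ≤ N := by
          have h1 := Int.emod_nonneg α h0
          have h2 := Int.emod_lt_abs α h0
          rw [← Int.natCast_natAbs] at h2
          omega
        have hdm := Int.emod_add_mul_ediv α γ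
        -- `g = n(q) (0 1; -1 0) (-γ -δ; r s)`
        have hi := ih (-γ) (-δ) (α % γ) (β - (α / γ) * δ) hr (by
          linear_combination hdet + δ * hdm)
        have h1 := (hG0 1 (α / γ) 0 1 (by ring) (dvd_zero _)).mul hS (by ring) (by norm_num)
        have h2 := h1.mul hi (by ring) (by linear_combination hdet + δ * hdm)
        have e1 : (1 * 0 + α / γ * -1) * -γ + (1 * 1 + α / γ * 0) * (α % γ) = α := by
          linear_combination hdm
        have e2 : (1 * 0 + α / γ * -1) * -δ + (1 * 1 + α / γ * 0) * (β - α / γ * δ) = β := by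
          ring
        have e3 : (0 * 0 + 1 * -1) * -γ + (0 * 1 + 1 * 0) * (α % γ) = γ := by ring
        have e4 : (0 * 0 + 1 * -1) * -δ + (0 * 1 + 1 * 0) * (β - α / γ * δ) = δ := by ring
        rw [e1, e2, e3, e4] at h2
        exact h2
  refine ⟨F, fun v1 v2 w1 w2 hv hw => ⟨(hF v1 v2 w1 w2 hv hw).1, fun α β γ δ hdet => ?_⟩⟩
  rw [PadicInt.coe_mul, PadicInt.coe_intCast]
  exact (hall γ.natAbs α β γ δ le_rfl hdet v1 v2 w1 w2 hv hw).1

end Pool.Agent.Helper70.TLV
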